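import Pool.Agent.Q155.HK.Conv

/-!
# Special points whose coordinates have the same CM field: definitions
-/

namespace Pool.Agent.Q28.OF

open MeasureTheory Pool.Agent.Q28.EQ Pool.Agent.Q155.HK

variable {G : Type} [Group G] {GF : Subgroup G} {n : ℕ}

/-- The facts on CM points of the modular curve `Y` which come from complex multiplication and class
field theory alone (the first six of the facts `CMFacts`). `C ⊆ GF` is the absolute Galois group of a
number field which is normal over the base field and contains `F` and the roots of unity of order the
level of `Y`. The ring class field `H x` is normal, `K x / H x` is abelian, and the elements outside of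
`K x` act on the image of `C` in it by inversion (`Dihedral`); `H x` is of finite index and fixes the
point `x`; the fields of conjugate points are the same. -/
structure GaloisFacts (C : Subgroup G) (Y : CMCurve G GF) : Prop where
  le : C ≤ GF
  dihedral : ∀ x, Dihedral C (Y.K x) (Y.H x)
  finite_index : ∀ x, (Y.H x).FiniteIndex
  fixed : ∀ x (g : GF), (g : G) ∈ Y.H x → g • x = x
  K_smul : ∀ (g : GF) x, Y.K (g • x) = Y.K x
  H_smul : ∀ (g : GF) x, Y.H (g • x) = Y.H x

/-- The group `V` fixes the CM fields of the coordinates `j ∈ T` of the special point `x`, and it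
contains the `2 ^ k`-th powers of all elements of `C` with this property, up to elements which act
trivially on the ring class fields of these coordinates. -/
def IsLarge (C : Subgroup G) (Y : Fin n → CMCurve G GF) (T : Finset (Fin n)) (k : ℕ)
    (x : Special Y) (V : Subgroup G) : Prop :=
  V ≤ C ∧ (∀ j ∈ T, V ≤ (Y j).K (x j)) ∧
    ∀ σ ∈ C, (∀ j ∈ T, σ ∈ (Y j).K (x j)) →
      ∃ τ ∈ V, ∀ j ∈ T, τ⁻¹ * σ ^ (2 ^ k) ∈ (Y j).H (x j)

/-- The projections of the Galois orbits of the special points `x i` to the product `X_T` of the
curves `Y j` with `j ∈ T` are equidistributed in the strong form: for each exponent `k` and all large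
groups `V i`, the orbits under `V i` of the points of the Galois orbits converge weakly to the
invariant measure. -/
def StronglyEquidistributedOn (C : Subgroup G) (Y : Fin n → CMCurve G GF) (T : Finset (Fin n))
    (x : ℕ → Special Y) : Prop :=
  ∀ (k : ℕ) (V : ℕ → Subgroup G), (∀ i, IsLarge C Y T k (x i) (V i)) →
    ∀ y : ℕ → Special Y, (∀ i, y i ∈ orb GF ⊤ (x i)) →
      ∀ f : (∀ j : T, (Y j).Y) → ℝ, Continuous f → HasCompactSupport f →
        Filter.Tendsto
          (fun i => avg (orb GF (V i) fun j : T => y i j) fun z => f fun j => (Y j).val (z j))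
          Filter.atTop (nhds (∫ z, f z ∂(Measure.pi fun j : T => (Y j).m)))

/-- The coordinates `j ∈ T` of the special points `x i` have the same CM field, for each `i`. -/
def HasOneField (Y : Fin n → CMCurve G GF) (T : Finset (Fin n)) (x : ℕ → Special Y) : Prop :=
  ∀ i, ∀ j ∈ T, ∀ k ∈ T, (Y j).K (x i j) = (Y k).K (x i k)

end Pool.Agent.Q28.OF
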