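import Pool.Agent.Q28.OF.Peel

/-!
# Strong equidistribution and products of functions of one coordinate
-/

namespace Pool.Agent.Q28.OF

open Filter Topology MeasureTheory Pool.Agent.Q28.EQ Pool.Agent.Q155.HK

variable {G : Type} [Group G] {GF : Subgroup G}

/-- weak convergence follows from the convergence for products of functions of one coordinate -/
lemma conv_sets {κ : Type} [Fintype κ] (Yk : κ → CMCurve G GF) (S : ℕ → Set (∀ k, (Yk k).P))
    (hfin : ∀ i, (S i).Finite) (hne : ∀ i, (S i).Nonempty) (l : Filter ℕ)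
    (hprod : ∀ g : ∀ k, (Yk k).Y → ℝ, (∀ k, Continuous (g k) ∧ HasCompactSupport (g k)) →
      Tendsto (fun i => avg (S i) fun y => ∏ k, g k ((Yk k).val (y k))) l
        (𝓝 (∏ k, ∫ y, g k y ∂(Yk k).m)))
    (f : (∀ k, (Yk k).Y) → ℝ) (hf : Continuous f) (hc : HasCompactSupport f) :
    Tendsto (fun i => avg (S i) fun y => f fun k => (Yk k).val (y k)) l
      (𝓝 (∫ y, f y ∂(Measure.pi fun k => (Yk k).m))) := by
  rw [Metric.tendsto_nhds]
  intro ε hε
  obtain ⟨ι, i1, c, g, hg, hfg⟩ := Pool.Agent.Q155.HK.dens f hf hc (ε / 4) (by positivity)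
  have hint : ∀ a, Integrable (fun y : (∀ j, (Yk j).Y) => ∏ j, g a j (y j))
      (Measure.pi fun j => (Yk j).m) := fun a =>
    Integrable.fintype_prod_dep fun j => (hg a j).1.integrable_of_hasCompactSupport (hg a j).2
  have hfint : Integrable f (Measure.pi fun j => (Yk j).m) :=
    hf.integrable_of_hasCompactSupport hc
  have hI : |∫ y, f y ∂(Measure.pi fun j => (Yk j).m) -
      ∑ a, c a * ∏ j, ∫ y, g a j y ∂(Yk j).m| ≤ ε / 4 := by
    have e1 : ∑ a, c a * ∏ j, ∫ y, g a j y ∂(Yk j).m =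
        ∫ y, ∑ a, c a * ∏ j, g a j (y j) ∂(Measure.pi fun j => (Yk j).m) := by
      rw [integral_finsetSum _ fun a _ => (hint a).const_mul (c a)]
      refine Finset.sum_congr rfl fun a _ => ?_
      rw [integral_const_mul, integral_fintype_prod_eq_prod]
    rw [e1, ← integral_sub hfint (integrable_finsetSum _ fun a _ => (hint a).const_mul (c a))]
    rw [← Real.norm_eq_abs]
    refine (norm_integral_le_of_norm_le_const (C := ε / 4)
      (Filter.Eventually.of_forall fun y => ?_)).trans ?_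
    · rw [Real.norm_eq_abs]; exact hfg y
    · simp
  have hev : Tendsto (fun i => ∑ a, c a * avg (S i)
      (fun y => ∏ j, g a j ((Yk j).val (y j)))) l
      (𝓝 (∑ a, c a * ∏ j, ∫ y, g a j y ∂(Yk j).m)) :=
    tendsto_finsetSum _ fun a _ => Tendsto.const_mul _ (hprod (g a) (hg a))
  filter_upwards [Metric.tendsto_nhds.mp hev (ε / 4) (by positivity)] with i h1
  have hS := hfin i
  have h2 := avg_sub_le hS (hne i) (fun y => f fun j => (Yk j).val (y j))
    (fun y => ∑ a, c a * ∏ j, g a j ((Yk j).val (y j))) (ε / 4) (fun y => hfg _)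
  rw [avg_lin hS c fun a y => ∏ j, g a j ((Yk j).val (y j))] at h2
  rw [Real.dist_eq] at h1 ⊢
  rw [abs_le] at h2 hI
  rw [abs_lt] at h1 ⊢
  constructor <;> linarith [h1.1, h1.2, h2.1, h2.2, hI.1, hI.2]

variable {n : ℕ} {C : Subgroup G} {Y : Fin n → CMCurve G GF}

/-- the projections of the orbits to the product of the curves with index in `T` -/
lemma avg_restrict' (hF : ∀ j, GaloisFacts C (Y j)) (T : Finset (Fin n)) (V : Subgroup G)
    (x : Special Y) (h : (∀ j : T, (Y j).P) → ℝ) :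
    avg (orb GF V fun j : T => x j) h = avg (orb GF V x) fun y => h fun j : T => y j :=
  (avg_proj (fun (z : Special Y) (j : T) => z j) (fun _ _ => rfl) V x (orb_finG hF x V) h).symm

lemma orb_fin_restrict' (hF : ∀ j, GaloisFacts C (Y j)) (T : Finset (Fin n)) (V : Subgroup G)
    (x : Special Y) : (orb GF V fun j : T => x j).Finite := by
  have h1 : (orb GF V fun j : T => x j) = (fun (z : Special Y) (j : T) => z j) '' orb GF V x := by
    ext y
    constructor
    · rintro ⟨g, hg, rfl⟩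
      exact ⟨g • x, ⟨g, hg, rfl⟩, rfl⟩
    · rintro ⟨_, ⟨g, hg, rfl⟩, rfl⟩
      exact ⟨g, hg, rfl⟩
  rw [h1]
  exact (orb_finG hF x V).image _

/-- strong equidistribution is a statement on products of functions -/
lemma strong_of_prod (hF : ∀ j, GaloisFacts C (Y j)) (T : Finset (Fin n)) (x : ℕ → Special Y)
    (h : ∀ (k : ℕ) (V : ℕ → Subgroup G), (∀ i, IsLarge C Y T k (x i) (V i)) →
      ∀ y : ℕ → Special Y, (∀ i, y i ∈ orb GF ⊤ (x i)) → ProdOnV atTop Y T V y) :
    StronglyEquidistributedOn C Y T x := by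
  classical
  intro k V hV y hy f hf hc
  refine conv_sets (fun j : T => Y j) (fun i => orb GF (V i) fun j : T => y i j)
    (fun i => orb_fin_restrict' hF T (V i) (y i)) (fun i => ⟨_, self_mem_orb _ _⟩) atTop ?_ f hf hc
  intro g hg
  let φ : ∀ j, (Y j).Y → ℝ := fun j => if hj : j ∈ T then g ⟨j, hj⟩ else 0
  have hφ : ∀ (j : Fin n) (hj : j ∈ T), φ j = g ⟨j, hj⟩ := fun j hj => dif_pos hj
  have hφ2 : ∀ j, Continuous (φ j) ∧ HasCompactSupport (φ j) := by
    intro j
    by_cases hj : j ∈ T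
    · rw [hφ j hj]; exact hg _
    · have : φ j = 0 := dif_neg hj
      rw [this]
      exact ⟨continuous_zero, HasCompactSupport.zero⟩
  have h1 := h k V hV y hy φ hφ2
  have e1 : ∏ j ∈ T, ∫ y, φ j y ∂(Y j).m = ∏ k : T, ∫ y, g k y ∂(Y k).m := by
    rw [← Finset.prod_coe_sort]
    exact Finset.prod_congr rfl fun k _ => by rw [hφ k k.2]
  rw [e1] at h1
  refine h1.congr fun i => ?_
  rw [avg_restrict' hF T (V i) (y i)]
  refine avg_congr (orb_finG hF (y i) (V i)) fun y _ => ?_
  rw [← Finset.prod_coe_sort]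
  exact Finset.prod_congr rfl fun k _ => by rw [hφ k k.2]

lemma prod_of_strong (hF : ∀ j, GaloisFacts C (Y j)) (T : Finset (Fin n)) (x : ℕ → Special Y)
    (h : StronglyEquidistributedOn C Y T x) (k : ℕ) (V : ℕ → Subgroup G)
    (hV : ∀ i, IsLarge C Y T k (x i) (V i)) (y : ℕ → Special Y)
    (hy : ∀ i, y i ∈ orb GF ⊤ (x i)) : ProdOnV atTop Y T V y := by
  intro φ hφ
  let f : (∀ j : T, (Y j).Y) → ℝ := fun y => ∏ j : T, φ j (y j)
  have hf : Continuous f := continuous_finsetProd _ fun j _ => (hφ j).1.comp (continuous_apply j)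
  have hc : HasCompactSupport f := by
    refine HasCompactSupport.of_support_subset_isCompact
      (K := Set.pi Set.univ fun j : T => tsupport (φ j)) (isCompact_univ_pi fun j => (hφ j).2) ?_
    intro y hy j _
    refine subset_tsupport _ ?_
    intro h0
    exact hy (Finset.prod_eq_zero (Finset.mem_univ j) h0)
  have h1 := h k V hV y hy f hf hc
  have e1 : ∫ y, f y ∂(Measure.pi fun j : T => (Y j).m) = ∏ j ∈ T, ∫ y, φ j y ∂(Y j).m := by
    rw [← Finset.prod_coe_sort]
    exact integral_fintype_prod_eq_prod (fun j : T => φ j)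
  rw [e1] at h1
  refine h1.congr fun i => ?_
  rw [avg_restrict' hF T (V i) (y i)]
  refine avg_congr (orb_finG hF (y i) (V i)) fun y _ => ?_
  rw [← Finset.prod_coe_sort]

/-- strong equidistribution implies equidistribution -/
lemma equidistributedOn (hF : ∀ j, GaloisFacts C (Y j)) (T : Finset (Fin n)) (x : ℕ → Special Y)
    (h : StronglyEquidistributedOn C Y T x) : EquidistributedOn Y T x := by
  classical
  let V : ℕ → Subgroup G := fun i => C ⊓ ⨅ j : Fin n, ⨅ _ : j ∈ T, (Y j).K (x i j)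
  have hVm : ∀ i g, g ∈ V i ↔ g ∈ C ∧ ∀ j ∈ T, g ∈ (Y j).K (x i j) := by
    intro i g
    simp [V, Subgroup.mem_inf, Subgroup.mem_iInf]
  have hV : ∀ i, IsLarge C Y T 0 (x i) (V i) := by
    intro i
    refine ⟨inf_le_left, fun j hj g hg => ((hVm i g).mp hg).2 j hj, fun σ h1 h2 =>
      ⟨σ, (hVm i σ).mpr ⟨h1, h2⟩, fun j _ => ?_⟩⟩
    rw [pow_zero, pow_one, inv_mul_cancel]
    exact Subgroup.one_mem _
  have h1 : ∀ φ : ∀ j, (Y j).Y → ℝ, (∀ j, Continuous (φ j) ∧ HasCompactSupport (φ j)) →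
      Tendsto (fun i => avg (orb GF ⊤ (x i)) fun z => ∏ j ∈ T, φ j ((Y j).val (z j))) atTop
        (𝓝 (∏ j ∈ T, ∫ z, φ j z ∂(Y j).m)) := by
    intro φ hφ
    rw [Metric.tendsto_nhds]
    intro ε hε
    filter_upwards [uniform T V x (fun y hy => prod_of_strong hF T x h 0 V hV y hy) φ hφ (ε / 2)
      (half_pos hε)] with i hi
    rw [Real.dist_eq]
    refine lt_of_le_of_lt ?_ (half_lt_self hε)
    refine avg_partition (orb_finG hF (x i) ⊤) ⟨x i, self_mem_orb _ _⟩ (fun z => orb GF (V i) z)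
      ?_ ?_ ?_ _ _ _ hi
    · rintro y ⟨g, -, rfl⟩ w ⟨k, -, rfl⟩
      exact ⟨k * g, Subgroup.mem_top _, mul_smul _ _ _⟩
    · intro y _
      exact self_mem_orb _ _
    · intro y _ z hz
      exact orb_eq hz
  intro f hf hc
  refine conv_sets (fun j : T => Y j) (fun i => orb GF ⊤ fun j : T => x i j)
    (fun i => orb_fin_restrict' hF T ⊤ (x i)) (fun i => ⟨_, self_mem_orb _ _⟩) atTop ?_ f hf hc
  intro g hg
  let φ : ∀ j, (Y j).Y → ℝ := fun j => if hj : j ∈ T then g ⟨j, hj⟩ else 0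
  have hφ : ∀ (j : Fin n) (hj : j ∈ T), φ j = g ⟨j, hj⟩ := fun j hj => dif_pos hj
  have hφ2 : ∀ j, Continuous (φ j) ∧ HasCompactSupport (φ j) := by
    intro j
    by_cases hj : j ∈ T
    · rw [hφ j hj]; exact hg _
    · have : φ j = 0 := dif_neg hj
      rw [this]
      exact ⟨continuous_zero, HasCompactSupport.zero⟩
  have h1 := h1 φ hφ2
  have e1 : ∏ j ∈ T, ∫ y, φ j y ∂(Y j).m = ∏ k : T, ∫ y, g k y ∂(Y k).m := by
    rw [← Finset.prod_coe_sort]
    exact Finset.prod_congr rfl fun k _ => by rw [hφ k k.2]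
  rw [e1] at h1
  refine h1.congr fun i => ?_
  rw [avg_restrict' hF T ⊤ (x i)]
  refine avg_congr (orb_finG hF (x i) ⊤) fun y _ => ?_
  rw [← Finset.prod_coe_sort]
  exact Finset.prod_congr rfl fun k _ => by rw [hφ k k.2]

end Pool.Agent.Q28.OF
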