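import Pool.Agent.Q28.OF.Defs

/-!
# The group which moves only one block
-/

namespace Pool.Agent.Q28.OF

open MeasureTheory Pool.Agent.Q28.EQ Pool.Agent.Q155.HK

section

variable {G : Type*} [Group G] {ι : Type*}

/-- the iterated commutators, for all coordinates with the same field -/
lemma iterated' (C : Subgroup G) (hC : C.Normal) (K H : ι → Subgroup G)
    (hD : ∀ k, Dihedral C (K k) (H k)) (a : ι) (τ : G) (hτC : τ ∈ C) (hτK : ∀ k, τ ∈ K k)
    (T : Finset ι) (hT : ∀ k ∈ T, K k ≠ K a) :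
    ∃ ρ : G, ρ ∈ C ∧ (∀ k, ρ ∈ K k) ∧ (∀ k ∈ T, ρ ∈ H k) ∧
      ∀ j, K j = K a → (haveI := (hD j).normal
       (QuotientGroup.mk' (H j) ρ) = (QuotientGroup.mk' (H j) τ) ^ ((-2 : ℤ) ^ T.card)) := by
  classical
  induction T using Finset.induction_on with
  | empty => exact ⟨τ, hτC, hτK, by simp, fun j _ => by simp⟩
  | insert k T hk ih =>
    obtain ⟨ρ, h1, h2, h3, h5⟩ := ih fun l hl => hT l (Finset.mem_insert_of_mem hl)
    obtain ⟨g, hg1, hg2⟩ := exists_in_not_in (hD a).index_two (hD k).index_two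
      (hT k (Finset.mem_insert_self k T)).symm
    have hKn : ∀ l, (K l).Normal := fun l => Subgroup.normal_of_index_eq_two (hD l).index_two
    refine ⟨g * ρ * g⁻¹ * ρ⁻¹, C.mul_mem (hC.conj_mem _ h1 g) (C.inv_mem h1), fun l =>
      (K l).mul_mem ((hKn l).conj_mem _ (h2 l) g) ((K l).inv_mem (h2 l)), fun l hl => ?_,
      fun j hj => ?_⟩
    · rcases Finset.mem_insert.mp hl with rfl | hl
      · exact (hD l).abelian g hg1 ρ (h2 l)
      · exact (H l).mul_mem ((hD l).normal.conj_mem _ (h3 l hl) g) ((H l).inv_mem (h3 l hl))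
    · haveI := (hD j).normal
      have hg3 : g ∉ K j := by rw [hj]; exact hg2
      have h6 := (hD j).invert g hg3 ρ (h2 j) h1
      have h7 : QuotientGroup.mk' (H j) (g * ρ * g⁻¹) = (QuotientGroup.mk' (H j) ρ)⁻¹ := by
        have : QuotientGroup.mk' (H j) (g * ρ * g⁻¹ * ρ) = 1 :=
          (QuotientGroup.eq_one_iff _).mpr h6
        rw [map_mul] at this
        exact eq_inv_of_mul_eq_one_left this
      have h8 : ∀ a : G ⧸ H j, a⁻¹ * a⁻¹ = a ^ (-2 : ℤ) := fun a => by group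
      rw [map_mul, h7, map_inv, h5 j hj, Finset.card_insert_of_notMem hk, pow_succ, zpow_mul, h8]

end

variable {G : Type} [Group G] {GF : Subgroup G} {n : ℕ} {C : Subgroup G}
  {Y : Fin n → CMCurve G GF}

lemma galoisFacts (hF : ∀ j, CMFacts C (Y j)) (j : Fin n) : GaloisFacts C (Y j) :=
  ⟨(hF j).le, (hF j).dihedral, (hF j).finite_index, (hF j).fixed, (hF j).K_smul, (hF j).H_smul⟩

lemma orb_finG (hF : ∀ j, GaloisFacts C (Y j)) (y : Special Y) (U : Subgroup G) :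
    (orb GF U y).Finite := by
  refine orb_finite (⨅ j, (Y j).H (y j))
    (Subgroup.finiteIndex_iInf fun j => (hF j).finite_index (y j)) y (fun g hg => ?_) U
  rw [Subgroup.mem_iInf] at hg
  funext j
  exact (hF j).fixed (y j) g (hg j)

/-- the elements of `V` which move only the coordinates in `b` -/
def blockGroup (Y : Fin n → CMCurve G GF) (T b : Finset (Fin n)) (x : Special Y)
    (V : Subgroup G) : Subgroup G :=
  V ⊓ ⨅ j : Fin n, ⨅ _ : j ∈ T \ b, (Y j).H (x j)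

lemma mem_blockGroup {T b : Finset (Fin n)} {x : Special Y} {V : Subgroup G} {g : G} :
    g ∈ blockGroup Y T b x V ↔ g ∈ V ∧ ∀ j ∈ T \ b, g ∈ (Y j).H (x j) := by
  simp [blockGroup, Subgroup.mem_inf, Subgroup.mem_iInf]

/-- it is large -/
lemma blockGroup_large (hF : ∀ j, GaloisFacts C (Y j)) (hC : C.Normal) (T b : Finset (Fin n))
    (hb : b ⊆ T) (x : Special Y) (a : Fin n) (hb1 : ∀ j ∈ b, (Y j).K (x j) = (Y a).K (x a))
    (hb2 : ∀ j ∈ T \ b, (Y j).K (x j) ≠ (Y a).K (x a)) (k : ℕ) (V : Subgroup G)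
    (hV : IsLarge C Y T k x V) :
    IsLarge C Y b (1 + (T \ b).card + k) x (blockGroup Y T b x V) := by
  obtain ⟨hV1, hV2, hV3⟩ := hV
  have hle : blockGroup Y T b x V ≤ V := inf_le_left
  refine ⟨hle.trans hV1, fun j hj => hle.trans (hV2 j (hb hj)), fun σ hσC hσK => ?_⟩
  have hD : ∀ j, Dihedral C ((Y j).K (x j)) ((Y j).H (x j)) := fun j => (hF j).dihedral (x j)
  obtain ⟨ρ, r1, r2, r3, r4⟩ := iterated' C hC (fun j => (Y j).K (x j)) (fun j => (Y j).H (x j))
    hD a (σ ^ 2) (C.pow_mem hσC 2) (fun j => Subgroup.sq_mem_of_index_two (hD j).index_two σ)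
    (T \ b) hb2
  obtain ⟨v, hv1, hv2⟩ := hV3 ρ r1 fun j _ => r2 j
  set m := (T \ b).card with hm
  refine ⟨v ^ ((-1 : ℤ) ^ m), Subgroup.zpow_mem _ (mem_blockGroup.mpr ⟨hv1, fun j hj => ?_⟩) _,
    fun j hj => ?_⟩
  · -- v is in H j for j outside of b
    have h1 := hv2 j (Finset.mem_sdiff.mp hj).1
    have h2 : ρ ^ 2 ^ k ∈ (Y j).H (x j) := Subgroup.pow_mem _ (r3 j hj) _
    have h3 : v⁻¹ ∈ (Y j).H (x j) := (Subgroup.mul_mem_cancel_right _ h2).mp h1
    exact (Subgroup.inv_mem_iff _).mp h3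
  · haveI := (hD j).normal
    have h1 := hv2 j (hb hj)
    have h2 : QuotientGroup.mk' ((Y j).H (x j)) v = QuotientGroup.mk' ((Y j).H (x j)) (ρ ^ 2 ^ k) := by
      rw [QuotientGroup.mk'_apply, QuotientGroup.mk'_apply, QuotientGroup.eq]
      exact h1
    have h3 : QuotientGroup.mk' ((Y j).H (x j)) (v ^ ((-1 : ℤ) ^ m)) =
        QuotientGroup.mk' ((Y j).H (x j)) (σ ^ 2 ^ (1 + m + k)) := by
      rw [map_zpow, h2, map_pow, r4 j (hb1 j hj), map_pow, map_pow]
      set s := QuotientGroup.mk' ((Y j).H (x j)) σ with hs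
      rw [← zpow_natCast, ← zpow_natCast, ← zpow_natCast, ← zpow_mul, ← zpow_mul, ← zpow_mul]
      congr 1
      push_cast
      have e1 : (-2 : ℤ) ^ m = (-1) ^ m * 2 ^ m := by rw [← mul_pow]; norm_num
      have e2 : ((-1 : ℤ) ^ m) * ((-1) ^ m) = 1 := by rw [← mul_pow]; norm_num
      rw [e1, pow_add, pow_add]
      calc 2 * ((-1 : ℤ) ^ m * 2 ^ m * (2 ^ k * (-1) ^ m))
          = ((-1 : ℤ) ^ m * (-1) ^ m) * (2 * 2 ^ m * 2 ^ k) := by ring
        _ = 2 ^ 1 * 2 ^ m * 2 ^ k := by rw [e2]; ring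
    rw [← QuotientGroup.eq]
    exact h3

end Pool.Agent.Q28.OF
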