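import Pool.Agent.Q28.OF.Conv

/-!
# One CM field at a time
-/

namespace Pool.Agent.Q28.OF

open Filter Topology MeasureTheory Pool.Agent.Q28.EQ Pool.Agent.Q155.HK

variable {G : Type} [Group G] {GF : Subgroup G} {n : ℕ} {C : Subgroup G}
  {Y : Fin n → CMCurve G GF}

/-- the index of a large group, for one coordinate -/
lemma single_index (hF : ∀ j, CMFacts C (Y j)) (hCn : C.Normal) (hCi : C.index ≠ 0) (j : Fin n)
    (k : ℕ) (x : Special Y) (V : Subgroup G) (hV : IsLarge C Y {j} k x V) :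
    (V ⊔ (Y j).H (x j)).relIndex ((Y j).K (x j)) ≤
      torsion ((Y j).K (x j)) ((Y j).H (x j)) (2 ^ k) * C.index := by
  obtain ⟨h1, h2, h3⟩ := hV
  have h2' := h2 j (Finset.mem_singleton_self j)
  have hD := (hF j).dihedral (x j)
  have hHn := hD.normal
  have hKn : ((Y j).K (x j)).Normal := Subgroup.normal_of_index_eq_two hD.index_two
  set K := (Y j).K (x j) with hK
  set H := (Y j).H (x j) with hH
  have i1 := Subgroup.relIndex_mul_relIndex (V ⊔ H) (C ⊓ K ⊔ H) K
    (sup_le_sup_right (le_inf h1 h2') _) (sup_le inf_le_right hD.le)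
  rw [← i1]
  have j1 : (V ⊔ H).relIndex (C ⊓ K ⊔ H) ≤ torsion K H (2 ^ k) := by
    refine relIndex_le_torsion' K H V (C ⊓ K) hHn hD.le inf_le_right (le_inf h1 h2')
      ((hF j).finite_index (x j)) hD.abelian _ fun w hw => ?_
    obtain ⟨τ, hτ, hτ2⟩ := h3 w hw.1 fun l hl => by
      rw [Finset.mem_singleton] at hl
      subst hl
      exact hw.2
    have e1 : w ^ 2 ^ k = τ * (τ⁻¹ * w ^ 2 ^ k) := by group
    rw [e1]
    exact Subgroup.mul_mem_sup hτ (hτ2 j (Finset.mem_singleton_self j))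
  have j2 : (C ⊓ K ⊔ H).relIndex K ≤ C.index := by
    have e2 : C.relIndex K ∣ C.index := Subgroup.relIndex_dvd_index_of_normal C K
    have e3 : (C ⊓ K).relIndex K ≠ 0 := by
      rw [Subgroup.inf_relIndex_right]
      intro h0
      rw [h0] at e2
      exact hCi (zero_dvd_iff.mp e2)
    refine (Subgroup.relIndex_le_of_le_left le_sup_left e3).trans ?_
    rw [Subgroup.inf_relIndex_right]
    exact Nat.le_of_dvd (Nat.pos_of_ne_zero hCi) e2
  exact Nat.mul_le_mul j1 j2

lemma disc_large' (hF : ∀ j, CMFacts C (Y j)) (x : ℕ → Special Y) (j : Fin n)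
    (hx : ∀ p : (Y j).P, {i | x i j = p}.Finite) (B : ℕ) :
    ∀ᶠ i in atTop, B ≤ (Y j).disc (x i j) := by
  have h1 : {i | (Y j).disc (x i j) ≤ B}.Finite := by
    have h2 : {i | (Y j).disc (x i j) ≤ B} ⊆ ⋃ p ∈ {p | (Y j).disc p ≤ B}, {i | x i j = p} := by
      intro i hi
      simp only [Set.mem_iUnion]
      exact ⟨x i j, hi, rfl⟩
    exact (Set.Finite.biUnion ((hF j).finite_disc B) fun p _ => hx p).subset h2
  rw [← Nat.cofinite_eq_atTop]
  filter_upwards [h1.compl_mem_cofinite] with i hi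
  by_contra h
  exact hi (Set.mem_ofPred.mpr (not_le.mp h).le)

/-- one coordinate -/
lemma single (hF : ∀ j, CMFacts C (Y j)) (hCn : C.Normal) (hCi : C.index ≠ 0) (j : Fin n)
    (x : ℕ → Special Y) (hx : ∀ B : ℕ, ∀ᶠ i in atTop, B ≤ (Y j).disc (x i j)) :
    StronglyEquidistributedOn C Y {j} x := by
  refine strong_of_prod (galoisFacts hF) {j} x fun k V hV y hy φ hφ => ?_
  simp only [Finset.prod_singleton]
  obtain ⟨η, hη, hduke⟩ := (hF j).duke
  rw [Metric.tendsto_nhds]
  intro ε hε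
  obtain ⟨B, hB⟩ := hduke (φ j) (hφ j).1 (hφ j).2 (ε / 2) (half_pos hε)
  have hη2 : 0 < η / 2 := half_pos hη
  obtain ⟨B2, hB2⟩ := (hF j).genus k (η / 2) hη2
  obtain ⟨B3, hB3⟩ : ∃ B' : ℕ, ∀ m : ℕ, B' ≤ m → ((C.index : ℕ) : ℝ) ≤ (m : ℝ) ^ (η / 2) := by
    have h1 : Tendsto (fun m : ℕ => (m : ℝ) ^ (η / 2)) atTop atTop :=
      (tendsto_rpow_atTop hη2).comp tendsto_natCast_atTop_atTop
    exact eventually_atTop.mp (h1.eventually_ge_atTop _)
  filter_upwards [hx (B + B2 + B3 + 1)] with i hi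
  obtain ⟨g, -, hg⟩ := hy i
  have c1 : (Y j).K (y i j) = (Y j).K (x i j) := by rw [← hg]; exact (hF j).K_smul g _
  have c2 : (Y j).H (y i j) = (Y j).H (x i j) := by rw [← hg]; exact (hF j).H_smul g _
  have c3 : (Y j).disc (y i j) = (Y j).disc (x i j) := by rw [← hg]; exact (hF j).disc_smul g _
  have h4 : (0 : ℝ) < ((Y j).disc (x i j) : ℝ) := by
    have : 0 < (Y j).disc (x i j) := by omega
    exact_mod_cast this
  have hidx := single_index hF hCn hCi j k (x i) (V i) (hV i)
  have e1 : avg (orb GF (V i) (y i)) (fun z => φ j ((Y j).val (z j))) =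
      avg (orb GF (V i) (y i j)) (fun p => φ j ((Y j).val p)) :=
    avg_proj (fun z : Special Y => z j) (fun g z => rfl) (V i) (y i) (orb_fin' hF (y i) (V i))
      (fun p => φ j ((Y j).val p))
  rw [e1, Real.dist_eq]
  refine lt_of_le_of_lt (hB (y i j) (by rw [c3]; omega) (V i) (hV i).1 ?_ ?_) (half_lt_self hε)
  · rw [c1]; exact (hV i).2.1 j (Finset.mem_singleton_self j)
  · rw [c1, c2, c3]
    calc ((V i ⊔ (Y j).H (x i j)).relIndex ((Y j).K (x i j)) : ℝ)
        ≤ (torsion ((Y j).K (x i j)) ((Y j).H (x i j)) (2 ^ k) : ℝ) * ((C.index : ℕ) : ℝ) := by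
          exact_mod_cast hidx
      _ ≤ ((Y j).disc (x i j) : ℝ) ^ (η / 2) * ((Y j).disc (x i j) : ℝ) ^ (η / 2) :=
          mul_le_mul (hB2 _ (by omega)) (hB3 _ (by omega)) (by positivity) (by positivity)
      _ = ((Y j).disc (x i j) : ℝ) ^ η := by
          rw [← Real.rpow_add h4]
          congr 1; ring

/-- the coordinates in `T` with the same field as the coordinate `j` -/
noncomputable def blk (Y : Fin n → CMCurve G GF) (T : Finset (Fin n)) (x : Special Y)
    (j : Fin n) : Finset (Fin n) := by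
  classical
  exact T.filter fun k => (Y k).K (x k) = (Y j).K (x j)

lemma mem_blk {T : Finset (Fin n)} {x : Special Y} {j k : Fin n} :
    k ∈ blk Y T x j ↔ k ∈ T ∧ (Y k).K (x k) = (Y j).K (x j) := by
  classical
  unfold blk
  rw [Finset.mem_filter]

/-- The criterion: it suffices to consider subsequences and sets of coordinates with one CM field. -/
theorem criterion (hF : ∀ j, GaloisFacts C (Y j)) (hCn : C.Normal)
    (T : Finset (Fin n)) (x : ℕ → Special Y)
    (h : ∀ b ⊆ T, b.Nonempty → ∀ ψ : ℕ → ℕ, StrictMono ψ →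
      HasOneField Y b (fun i => x (ψ i)) → StronglyEquidistributedOn C Y b fun i => x (ψ i)) :
    StronglyEquidistributedOn C Y T x := by
  classical
  refine strong_of_prod hF T x fun k V hV y hy φ hφ => ?_
  refine tendsto_of_subseq_tendsto fun ns hns => ?_
  obtain ⟨ms, hms, hms2⟩ := strictMono_subseq_of_tendsto_atTop hns
  -- one pattern
  obtain ⟨P, hP⟩ : ∃ P : Fin n → Finset (Fin n), ∃ᶠ i in atTop,
      (fun j => blk Y T (x (ns (ms i))) j) = P := by
    by_contra hc
    push Not at hc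
    have h1 : ∀ᶠ i in atTop, ∀ P : Fin n → Finset (Fin n),
        ¬ (fun j => blk Y T (x (ns (ms i))) j) = P := by
      rw [Filter.eventually_all]
      exact fun P => hc P
    obtain ⟨i, hi⟩ := h1.exists
    exact hi _ rfl
  obtain ⟨ls, hls, hls2⟩ := extraction_of_frequently_atTop hP
  refine ⟨ms ∘ ls, ?_⟩
  set ψ : ℕ → ℕ := fun i => ns (ms (ls i)) with hψ
  have hψm : StrictMono ψ := hms2.comp hls
  have hPi : ∀ i j, blk Y T (x (ψ i)) j = P j := fun i j => congrFun (hls2 i) j
  have hPm : ∀ i j l, l ∈ P j ↔ l ∈ T ∧ (Y l).K (x (ψ i) l) = (Y j).K (x (ψ i) j) := by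
    intro i j l
    rw [← hPi i j, mem_blk]
  -- the blocks
  have hblock : ∀ a ∈ T, ∀ y' : ℕ → Special Y, (∀ i, y' i ∈ orb GF ⊤ (x (ψ i))) →
      ProdOnV atTop Y (P a) (fun i => blockGroup Y T (P a) (x (ψ i)) (V (ψ i))) y' := by
    intro a ha y' hy'
    have hbT : P a ⊆ T := fun l hl => ((hPm 0 a l).mp hl).1
    have haP : a ∈ P a := (hPm 0 a a).mpr ⟨ha, rfl⟩
    have hone : HasOneField Y (P a) fun i => x (ψ i) := by
      intro i j hj l hl
      exact ((hPm i a j).mp hj).2.trans ((hPm i a l).mp hl).2.symm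
    have hstrong : StronglyEquidistributedOn C Y (P a) fun i => x (ψ i) :=
      h (P a) hbT ⟨a, haP⟩ ψ hψm hone
    refine prod_of_strong hF (P a) _ hstrong (1 + (T \ P a).card + k) _ (fun i => ?_) y' hy'
    refine blockGroup_large hF hCn T (P a) hbT (x (ψ i)) a (fun j hj => ((hPm i a j).mp hj).2)
      (fun j hj hK => ?_) k (V (ψ i)) (hV (ψ i))
    obtain ⟨h1, h2⟩ := Finset.mem_sdiff.mp hj
    exact h2 ((hPm i a j).mpr ⟨h1, hK⟩)
  -- induction over the blocks
  have key : ∀ B : Finset (Finset (Fin n)), B ⊆ T.image P →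
      Tendsto (fun i => avg (orb GF (V (ψ i)) (y (ψ i))) fun z =>
        ∏ j ∈ B.biUnion id, φ j ((Y j).val (z j))) atTop
        (𝓝 (∏ j ∈ B.biUnion id, ∫ z, φ j z ∂(Y j).m)) := by
    intro B
    induction B using Finset.induction_on with
    | empty =>
      intro _
      simp only [Finset.biUnion_empty, Finset.prod_empty]
      have : (fun i => avg (orb GF (V (ψ i)) (y (ψ i))) fun _ => (1 : ℝ)) = fun _ => 1 := by
        funext i
        exact avg_const (orb_finG hF (y (ψ i)) (V (ψ i))) ⟨y (ψ i), self_mem_orb _ _⟩ 1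
      rw [this]
      exact tendsto_const_nhds
    | insert b B hb ih =>
      intro hsub
      have h1 := ih fun c hc => hsub (Finset.mem_insert_of_mem hc)
      obtain ⟨a, ha, rfl⟩ := Finset.mem_image.mp (hsub (Finset.mem_insert_self b B))
      have hT' : B.biUnion id ⊆ T \ P a := by
        intro l hl
        obtain ⟨c, hc, hlc⟩ := Finset.mem_biUnion.mp hl
        obtain ⟨a', ha', rfl⟩ := Finset.mem_image.mp (hsub (Finset.mem_insert_of_mem hc))
        have hlc' : l ∈ P a' := hlc
        refine Finset.mem_sdiff.mpr ⟨((hPm 0 a' l).mp hlc').1, fun hla => hb ?_⟩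
        have e1 : P a = P a' := by
          ext m
          rw [hPm 0 a m, hPm 0 a' m, ← ((hPm 0 a l).mp hla).2, ← ((hPm 0 a' l).mp hlc').2]
        rw [e1]
        exact hc
      have hdis : Disjoint (B.biUnion id) (P a) := by
        rw [Finset.disjoint_left]
        exact fun l hl => (Finset.mem_sdiff.mp (hT' hl)).2
      have h2 := peel_block hF T (P a) (B.biUnion id) hT' (fun i => V (ψ i)) (fun i => x (ψ i))
        (hblock a ha) φ hφ (fun i => y (ψ i)) (fun i => hy (ψ i)) _ h1
      have e2 : (insert (P a) B).biUnion id = B.biUnion id ∪ P a := by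
        rw [Finset.biUnion_insert, Finset.union_comm]; rfl
      rw [e2, Finset.prod_union hdis]
      refine h2.congr fun i => ?_
      congr 1
      funext z
      rw [Finset.prod_union hdis]
  have hT : (T.image P).biUnion id = T := by
    ext l
    rw [Finset.mem_biUnion]
    constructor
    · rintro ⟨c, hc, hlc⟩
      obtain ⟨a', ha', rfl⟩ := Finset.mem_image.mp hc
      exact ((hPm 0 a' l).mp hlc).1
    · intro hl
      exact ⟨P l, Finset.mem_image_of_mem P hl, (hPm 0 l l).mpr ⟨hl, rfl⟩⟩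
  have h1 := key _ (Finset.Subset.refl _)
  rw [hT] at h1
  exact h1

/-- The same with at least two coordinates, by Duke's theorem for one coordinate. -/
theorem criterion_two (hF : ∀ j, CMFacts C (Y j)) (hCn : C.Normal) (hCi : C.index ≠ 0)
    (T : Finset (Fin n)) (x : ℕ → Special Y) (hx : ∀ j ∈ T, ∀ p : (Y j).P, {i | x i j = p}.Finite)
    (h : ∀ b ⊆ T, 2 ≤ b.card → ∀ ψ : ℕ → ℕ, StrictMono ψ →
      HasOneField Y b (fun i => x (ψ i)) → StronglyEquidistributedOn C Y b fun i => x (ψ i)) :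
    StronglyEquidistributedOn C Y T x := by
  refine criterion (galoisFacts hF) hCn T x fun b hb hne ψ hψ hone => ?_
  by_cases h2 : 2 ≤ b.card
  · exact h b hb h2 ψ hψ hone
  · have h4 : 0 < b.card := Finset.card_pos.mpr hne
    obtain ⟨a, rfl⟩ := Finset.card_eq_one.mp (show b.card = 1 by omega)
    refine single hF hCn hCi a _ fun B => ?_
    exact hψ.tendsto_atTop.eventually
      (disc_large' hF x a (hx a (hb (Finset.mem_singleton_self a))) B)

end Pool.Agent.Q28.OF
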