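import Pool.Agent.Q28.OF.Grp

/-!
# Peeling off a block
-/

namespace Pool.Agent.Q28.OF

open Filter Topology MeasureTheory Pool.Agent.Q28.EQ Pool.Agent.Q155.HK

/-- replacing one factor by its mean value on the classes -/
lemma avg_peel' {α : Type*} {S : Set α} (hS : S.Finite) (hne : S.Nonempty) (cl : α → Set α)
    (h1 : ∀ y ∈ S, cl y ⊆ S) (h2 : ∀ y ∈ S, y ∈ cl y)
    (h3 : ∀ y ∈ S, ∀ z ∈ cl y, cl z = cl y) (F φ : α → ℝ) (hF : ∀ y ∈ S, ∀ z ∈ cl y, F z = F y)
    (c M ε : ℝ) (hgood : ∀ y ∈ S, |avg (cl y) φ - c| ≤ ε) (hM : ∀ y, |F y| ≤ M) :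
    |avg S (fun y => F y * φ y) - avg S F * c| ≤ M * ε := by
  have hcf : ∀ y ∈ S, (cl y).Finite := fun y hy => hS.subset (h1 y hy)
  have e1 : avg S (fun y => F y * φ y) = avg S (fun y => F y * avg (cl y) φ) := by
    rw [← avg_avg hS cl h1 h2 h3 (fun y => F y * φ y)]
    refine avg_congr hS fun y hy => ?_
    rw [← avg_mul (hcf y hy)]
    exact avg_congr (hcf y hy) fun z hz => by rw [hF y hy z hz]
  have e2 : avg S F * c = avg S (fun y => F y * c) := by
    rw [mul_comm, ← avg_mul hS]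
    exact avg_congr hS fun y _ => mul_comm _ _
  rw [e1, e2, ← avg_sub hS]
  refine (abs_avg_le hS _).trans ?_
  rw [← avg_const hS hne (M * ε)]
  refine avg_mono hS fun y hy => ?_
  rw [← mul_sub, abs_mul]
  exact mul_le_mul (hM y) (hgood y hy) (abs_nonneg _) ((abs_nonneg _).trans (hM y))

variable {G : Type} [Group G] {GF : Subgroup G} {n : ℕ} {C : Subgroup G}
  {Y : Fin n → CMCurve G GF}

/-- convergence for products of functions of one coordinate, for the orbits of the groups `V i` -/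
def ProdOnV (l : Filter ℕ) (Y : Fin n → CMCurve G GF) (T : Finset (Fin n)) (V : ℕ → Subgroup G)
    (y : ℕ → Special Y) : Prop :=
  ∀ φ : ∀ j, (Y j).Y → ℝ, (∀ j, Continuous (φ j) ∧ HasCompactSupport (φ j)) →
    Tendsto (fun i => avg (orb GF (V i) (y i)) fun z => ∏ j ∈ T, φ j ((Y j).val (z j))) l
      (𝓝 (∏ j ∈ T, ∫ z, φ j z ∂(Y j).m))

/-- uniform convergence on the Galois orbits -/
lemma uniform (T : Finset (Fin n)) (V : ℕ → Subgroup G) (x : ℕ → Special Y)
    (h : ∀ y : ℕ → Special Y, (∀ i, y i ∈ orb GF ⊤ (x i)) → ProdOnV atTop Y T V y)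
    (φ : ∀ j, (Y j).Y → ℝ) (hφ : ∀ j, Continuous (φ j) ∧ HasCompactSupport (φ j))
    (ε : ℝ) (hε : 0 < ε) : ∀ᶠ i in atTop, ∀ z ∈ orb GF ⊤ (x i),
      |avg (orb GF (V i) z) (fun z => ∏ j ∈ T, φ j ((Y j).val (z j))) -
        ∏ j ∈ T, ∫ z, φ j z ∂(Y j).m| ≤ ε := by
  classical
  let bad : ℕ → Special Y → Prop := fun i z => z ∈ orb GF ⊤ (x i) ∧
    ¬ |avg (orb GF (V i) z) (fun z => ∏ j ∈ T, φ j ((Y j).val (z j))) -
        ∏ j ∈ T, ∫ z, φ j z ∂(Y j).m| ≤ ε
  let y : ℕ → Special Y := fun i => if hb : ∃ z, bad i z then hb.choose else x i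
  have hy : ∀ i, y i ∈ orb GF ⊤ (x i) := by
    intro i
    by_cases hb : ∃ z, bad i z
    · have : y i = hb.choose := dif_pos hb
      rw [this]
      exact hb.choose_spec.1
    · have : y i = x i := dif_neg hb
      rw [this]
      exact self_mem_orb _ _
  have h1 := h y hy φ hφ
  rw [Metric.tendsto_nhds] at h1
  filter_upwards [h1 ε hε] with i hi z hz
  by_contra hc
  have hb : ∃ z, bad i z := ⟨z, hz, hc⟩
  have : y i = hb.choose := dif_pos hb
  rw [this, Real.dist_eq] at hi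
  exact hb.choose_spec.2 hi.le

lemma bounded_prod (T : Finset (Fin n)) (φ : ∀ j, (Y j).Y → ℝ)
    (hφ : ∀ j, Continuous (φ j) ∧ HasCompactSupport (φ j)) :
    ∃ M : ℝ, ∀ z : Special Y, |∏ j ∈ T, φ j ((Y j).val (z j))| ≤ M := by
  have h : ∀ j, ∃ M : ℝ, ∀ z, |φ j z| ≤ M := by
    intro j
    obtain ⟨M, hM⟩ := (hφ j).1.bounded_above_of_compact_support (hφ j).2
    exact ⟨M, fun z => by rw [← Real.norm_eq_abs]; exact hM z⟩
  choose M hM using h
  refine ⟨∏ j ∈ T, M j, fun z => ?_⟩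
  rw [Finset.abs_prod]
  exact Finset.prod_le_prod (fun j _ => abs_nonneg _) fun j _ => hM j _

/-- peeling off the block `b` from `T'`, both in `T` -/
lemma peel_block (hF : ∀ j, GaloisFacts C (Y j)) (T b T' : Finset (Fin n)) (hT' : T' ⊆ T \ b)
    (V : ℕ → Subgroup G) (x : ℕ → Special Y)
    (hb : ∀ y : ℕ → Special Y, (∀ i, y i ∈ orb GF ⊤ (x i)) →
      ProdOnV atTop Y b (fun i => blockGroup Y T b (x i) (V i)) y)
    (φ : ∀ j, (Y j).Y → ℝ) (hφ : ∀ j, Continuous (φ j) ∧ HasCompactSupport (φ j))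
    (y : ℕ → Special Y) (hy : ∀ i, y i ∈ orb GF ⊤ (x i)) (c : ℝ)
    (h : Tendsto (fun i => avg (orb GF (V i) (y i)) fun z => ∏ j ∈ T', φ j ((Y j).val (z j)))
      atTop (𝓝 c)) :
    Tendsto (fun i => avg (orb GF (V i) (y i)) fun z =>
      (∏ j ∈ T', φ j ((Y j).val (z j))) * ∏ j ∈ b, φ j ((Y j).val (z j))) atTop
      (𝓝 (c * ∏ j ∈ b, ∫ z, φ j z ∂(Y j).m)) := by
  obtain ⟨M, hM⟩ := bounded_prod T' φ hφ
  set cb := ∏ j ∈ b, ∫ z, φ j z ∂(Y j).m with hcb
  have h1 : Tendsto (fun i => (avg (orb GF (V i) (y i))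
      fun z => ∏ j ∈ T', φ j ((Y j).val (z j))) * cb) atTop (𝓝 (c * cb)) := h.mul_const cb
  have h2 : Tendsto (fun i => (avg (orb GF (V i) (y i)) fun z =>
      (∏ j ∈ T', φ j ((Y j).val (z j))) * ∏ j ∈ b, φ j ((Y j).val (z j))) -
      (avg (orb GF (V i) (y i)) fun z => ∏ j ∈ T', φ j ((Y j).val (z j))) * cb) atTop (𝓝 0) := by
    rw [Metric.tendsto_nhds]
    intro ε hε
    have hM' : 0 < |M| + 1 := by positivity
    filter_upwards [uniform b _ x hb φ hφ (ε / (2 * (|M| + 1))) (by positivity)] with i hi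
    have hfin : (orb GF (V i) (y i)).Finite := orb_finG hF (y i) (V i)
    have hsub : ∀ z ∈ orb GF (V i) (y i), z ∈ orb GF ⊤ (x i) := by
      rintro z ⟨g, hg, rfl⟩
      obtain ⟨g', -, hg'⟩ := hy i
      exact ⟨g * g', Subgroup.mem_top _, by rw [mul_smul, hg']⟩
    have h3 := avg_peel' hfin ⟨y i, self_mem_orb _ _⟩
      (fun z => orb GF (blockGroup Y T b (x i) (V i)) z) ?_ ?_ ?_
      (fun z => ∏ j ∈ T', φ j ((Y j).val (z j))) (fun z => ∏ j ∈ b, φ j ((Y j).val (z j))) ?_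
      cb M (ε / (2 * (|M| + 1))) (fun z hz => hi z (hsub z hz)) hM
    · rw [Real.dist_eq, sub_zero]
      refine lt_of_le_of_lt h3 ?_
      have e0 : M * (ε / (2 * (|M| + 1))) ≤ (|M| + 1) * (ε / (2 * (|M| + 1))) :=
        mul_le_mul_of_nonneg_right ((le_abs_self M).trans (by linarith)) (by positivity)
      have e1 : (|M| + 1) * (ε / (2 * (|M| + 1))) = ε / 2 := by field_simp
      rw [e1] at e0
      linarith
    · rintro z ⟨g, hg, rfl⟩ w ⟨k, hk, rfl⟩
      exact ⟨k * g, (V i).mul_mem (mem_blockGroup.mp hk).1 hg, mul_smul _ _ _⟩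
    · intro z _
      exact self_mem_orb _ _
    · intro z _ w hw
      exact orb_eq hw
    · rintro z hz w ⟨k, hk, rfl⟩
      refine Finset.prod_congr rfl fun l hl => ?_
      have h4 : (k • z) l = z l := by
        obtain ⟨g', -, hg'⟩ := hsub z hz
        have h5 : (k : G) ∈ (Y l).H (z l) := by
          rw [← hg', Pi.smul_apply, (hF l).H_smul]
          exact (mem_blockGroup.mp hk).2 l (hT' hl)
        exact (hF l).fixed _ k h5
      rw [h4]
  have h3 := h2.add h1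
  rw [zero_add] at h3
  refine h3.congr fun i => ?_
  ring

end Pool.Agent.Q28.OF
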